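import Mathlib

/-!
Module C1 of MP_f8d35d_nt: `25631` is not a cube in `ℚ_19(∛κ)` (numerical part).
-/

namespace Pool.Agent.H77.F8

lemma dec1 : ∀ x : ZMod 19, x ^ 2 + x + 1 = 0 → x = 7 ∨ x = 11 := by decide
lemma dec2 : (71 : ZMod 19) ≠ 0 := by decide
lemma dec3 : (71 * (10 - 129 * 7 ^ 2) : ZMod 19) ≠ 0 := by decide
lemma dec4 : (949 ^ 2 : ZMod 19) ≠ 0 := by decide
lemma dec5 : ∀ r : ZMod 19, ¬ (71 * (10 - 129 * 7 ^ 2) = r ^ 3 * 949 ^ 2) := by decide
lemma dec6 : (949 * (10 - 129 * 11) : ZMod 19) ≠ 0 := by decide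
lemma dec7 : (71 * (10 - 129 * 7 ^ 2) ^ 2 : ZMod 19) ≠ 0 := by decide
lemma dec8 : (949 ^ 4 : ZMod 19) ≠ 0 := by decide
lemma dec9 : ((949 * (10 - 129 * 11)) ^ 2 : ZMod 19) ≠ 0 := by decide
lemma dec10 : ∀ r : ZMod 19, ¬ (71 = r ^ 3 * (949 * (10 - 129 * 11)) ^ 2) := by decide

variable [Fact (Nat.Prime 19)]

@[simp] lemma coe_ofNat' (n : ℕ) [n.AtLeastTwo] :
    ((ofNat(n) : ℤ_[19]) : ℚ_[19]) = ofNat(n) := map_ofNat PadicInt.Coe.ringHom n

lemma norm_one_of_res {x : ℤ_[19]} (h : PadicInt.toZMod x ≠ 0) : ‖x‖ = 1 := by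
  rw [← PadicInt.isUnit_iff, ← IsLocalRing.notMem_maximalIdeal, ← PadicInt.ker_toZMod,
    RingHom.mem_ker]
  exact h

lemma norm_19 : ‖(19 : ℚ_[19])‖ = (19 : ℝ)⁻¹ := by
  have := Padic.norm_p (p := 19)
  exact_mod_cast this

lemma val_mod {m n : ℕ} {x y : ℤ_[19]} (hx : ‖x‖ = 1) (hy : ‖y‖ = 1) {a : ℚ_[19]}
    (h : (19 : ℚ_[19]) ^ m * x = a ^ 3 * (19 ^ n * y)) : ∃ k : ℤ, (m : ℤ) = 3 * k + n := by
  have hx' : ‖(x : ℚ_[19])‖ = 1 := hx
  have hy' : ‖(y : ℚ_[19])‖ = 1 := hy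
  have h1 := congrArg (fun z : ℚ_[19] => ‖z‖) h
  simp only [norm_mul, norm_pow, norm_19, hx', hy', mul_one] at h1
  have ha : a ≠ 0 := by
    rintro rfl
    rw [norm_zero] at h1
    have : (0 : ℝ) < (19 : ℝ)⁻¹ ^ m := by positivity
    rw [h1] at this
    norm_num at this
  rw [Padic.norm_eq_zpow_neg_valuation ha] at h1
  refine ⟨a.valuation, ?_⟩
  have h2 : ((19 : ℝ)) ^ (-(m : ℤ)) = (19 : ℝ) ^ (-(3 * a.valuation + n)) := by
    rw [zpow_neg, zpow_natCast, ← inv_pow, h1, inv_pow, ← zpow_natCast (19 : ℝ) n, ← zpow_neg,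
      ← zpow_natCast, ← zpow_mul]
    have h19 : ((19 : ℕ) : ℝ) = 19 := by norm_num
    rw [h19, ← zpow_add₀ (by norm_num)]
    congr 1
    push_cast [coe_ofNat']
    ring
  have h3 := (zpow_right_injective₀ (by norm_num : (0 : ℝ) < 19) (by norm_num)) h2
  omega

lemma res_of_eq {x y : ℤ_[19]} (hx : ‖x‖ = 1) (hy : ‖y‖ = 1) {a : ℚ_[19]}
    (h : (x : ℚ_[19]) = a ^ 3 * y) :
    ∃ r : ZMod 19, PadicInt.toZMod x = r ^ 3 * PadicInt.toZMod y := by
  have hx' : ‖(x : ℚ_[19])‖ = 1 := hx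
  have hy' : ‖(y : ℚ_[19])‖ = 1 := hy
  have h1 := congrArg (fun z : ℚ_[19] => ‖z‖) h
  simp only [norm_mul, norm_pow, hx', hy', mul_one] at h1
  have ha : ‖a‖ = 1 := by
    have h2 := h1.symm
    exact (pow_eq_one_iff_of_nonneg (norm_nonneg a) (by norm_num)).1 h2
  let a' : ℤ_[19] := ⟨a, ha.le⟩
  refine ⟨PadicInt.toZMod a', ?_⟩
  have h3 : x = a' ^ 3 * y := by
    apply Subtype.ext
    push_cast [coe_ofNat']
    exact h
  rw [h3, map_mul, map_pow]

/-- numerical contradiction -/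
theorem final_contra {w a : ℚ_[19]} (hw : w ^ 2 + w + 1 = 0) {j : ℕ} (hj : j < 3)
    (h : (25631 : ℚ_[19]) = a ^ 3 * (18031 * (10 - 129 * w)) ^ j) : False := by
  have hw3 : w ^ 3 = 1 := by linear_combination (w - 1) * hw
  have hwn : ‖w‖ = 1 := by
    have h1 := congrArg (fun z : ℚ_[19] => ‖z‖) hw3
    simp only [norm_pow, norm_one] at h1
    exact (pow_eq_one_iff_of_nonneg (norm_nonneg w) (by norm_num)).1 h1
  obtain ⟨W, hW⟩ : ∃ W : ℤ_[19], (W : ℚ_[19]) = w := ⟨⟨w, hwn.le⟩, rfl⟩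
  have hWeq : W ^ 2 + W + 1 = 0 := by
    apply Subtype.ext
    push_cast [coe_ofNat']
    rw [hW]
    exact hw
  have hres : (PadicInt.toZMod W) ^ 2 + PadicInt.toZMod W + 1 = 0 := by
    have := congrArg PadicInt.toZMod hWeq
    simpa using this
  have e1 : (25631 : ℚ_[19]) = 19 ^ 2 * ((71 : ℤ_[19]) : ℚ_[19]) := by push_cast [coe_ofNat']; norm_num
  have n71 : ‖(71 : ℤ_[19])‖ = 1 := by
    apply norm_one_of_res
    rw [map_ofNat]
    exact dec2
  interval_cases j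
  · -- j = 0
    have h1 : (19 : ℚ_[19]) ^ 2 * ((71 : ℤ_[19]) : ℚ_[19]) =
        a ^ 3 * (19 ^ 0 * ((1 : ℤ_[19]) : ℚ_[19])) := by
      rw [← e1, h]; push_cast [coe_ofNat']; ring
    obtain ⟨k, hk⟩ := val_mod n71 norm_one h1
    omega
  · rcases dec1 _ hres with h7 | h11
    · -- w = 7, j = 1
      let U : ℤ_[19] := 10 - 129 * W ^ 2
      have rU : PadicInt.toZMod U = 10 - 129 * 7 ^ 2 := by
        simp only [U, map_sub, map_mul, map_pow, h7, map_ofNat]
      have h1 : (((71 * U : ℤ_[19])) : ℚ_[19]) = a ^ 3 * ((949 ^ 2 : ℤ_[19]) : ℚ_[19]) := by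
        have h2 : (19 : ℚ_[19]) ^ 2 * (((71 * U : ℤ_[19])) : ℚ_[19]) =
            19 ^ 2 * (a ^ 3 * ((949 ^ 2 : ℤ_[19]) : ℚ_[19])) := by
          simp only [U]
          push_cast [coe_ofNat']
          rw [hW]
          linear_combination (10 - 129 * w ^ 2) * h +
            a ^ 3 * 18031 * ((-1290 + 16641 * w - 16641) * hw)
        exact mul_left_cancel₀ (by norm_num) h2
      obtain ⟨r, hr⟩ := res_of_eq (by
        apply norm_one_of_res
        rw [map_mul, rU, map_ofNat]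
        exact dec3) (by
        apply norm_one_of_res
        rw [map_pow, map_ofNat]
        exact dec4) h1
      rw [map_mul, rU, map_pow, map_ofNat, map_ofNat] at hr
      exact dec5 r hr
    · -- w = 11, j = 1
      let U : ℤ_[19] := 949 * (10 - 129 * W)
      have rU : PadicInt.toZMod U = 949 * (10 - 129 * 11) := by
        simp only [U, map_sub, map_mul, h11, map_ofNat]
      have h1 : (19 : ℚ_[19]) ^ 2 * ((71 : ℤ_[19]) : ℚ_[19]) =
          a ^ 3 * (19 ^ 1 * (U : ℚ_[19])) := by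
        rw [← e1, h]
        simp only [U]
        push_cast [coe_ofNat']
        rw [hW]
        ring
      obtain ⟨k, hk⟩ := val_mod n71 (by
        apply norm_one_of_res
        rw [rU]
        exact dec6) h1
      omega
  · rcases dec1 _ hres with h7 | h11
    · -- w = 7, j = 2
      let U : ℤ_[19] := 10 - 129 * W ^ 2
      have rU : PadicInt.toZMod U = 10 - 129 * 7 ^ 2 := by
        simp only [U, map_sub, map_mul, map_pow, h7, map_ofNat]
      have hprod : (18031 * (10 - 129 * w)) * (10 - 129 * w ^ 2) = 19 ^ 2 * 949 ^ 2 := by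
        linear_combination (18031 * (-1290 + 16641 * w - 16641)) * hw
      have h1 : (19 : ℚ_[19]) ^ 2 * ((71 * U ^ 2 : ℤ_[19]) : ℚ_[19]) =
          a ^ 3 * (19 ^ 4 * ((949 ^ 4 : ℤ_[19]) : ℚ_[19])) := by
        simp only [U]
        push_cast [coe_ofNat']
        rw [hW]
        linear_combination (10 - 129 * w ^ 2) ^ 2 * h +
          a ^ 3 * ((18031 * (10 - 129 * w)) * (10 - 129 * w ^ 2) + 19 ^ 2 * 949 ^ 2) * hprod
      obtain ⟨k, hk⟩ := val_mod (by
        apply norm_one_of_res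
        rw [map_mul, map_pow, rU, map_ofNat]
        exact dec7) (by
        apply norm_one_of_res
        rw [map_pow, map_ofNat]
        exact dec8) h1
      omega
    · -- w = 11, j = 2
      let U : ℤ_[19] := 949 * (10 - 129 * W)
      have rU : PadicInt.toZMod U = 949 * (10 - 129 * 11) := by
        simp only [U, map_sub, map_mul, h11, map_ofNat]
      have h1 : ((71 : ℤ_[19]) : ℚ_[19]) = a ^ 3 * ((U ^ 2 : ℤ_[19]) : ℚ_[19]) := by
        have h2 : (19 : ℚ_[19]) ^ 2 * ((71 : ℤ_[19]) : ℚ_[19]) =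
            19 ^ 2 * (a ^ 3 * ((U ^ 2 : ℤ_[19]) : ℚ_[19])) := by
          rw [← e1, h]
          simp only [U]
          push_cast [coe_ofNat']
          rw [hW]
          ring
        exact mul_left_cancel₀ (by norm_num) h2
      obtain ⟨r, hr⟩ := res_of_eq n71 (by
        apply norm_one_of_res
        rw [map_pow, rU]
        exact dec9) h1
      rw [map_pow, rU, map_ofNat] at hr
      exact dec10 r hr

end Pool.Agent.H77.F8
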