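import Pool.Agent.H15.F8.Claim2
import Pool.Agent.H77.F8.Num

/-!
Module C1 of MP_f8d35d_nt: the valuation at `19` of the Kummer generator of an invariant class.
-/

namespace Pool.Agent.H77.F8

open _root_.F8

section hfun

variable {A : Type} [Field A] [DecidableEq A] [Algebra ℚ A]

/-- a nonzero function of `R` multiplied by `w` under translation by `P` -/
noncomputable def hf (w : A) (R : Pt A) : A :=
  if xc R = 0 then 1 else if bet w R ≠ 0 then bet w R / xc R else (bet (w ^ 2) R / xc R) ^ 2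

lemma xc_add_PT_ne {R : Pt A} (h : xc R ≠ 0) : xc (R + PT) ≠ 0 := by
  intro h0
  rw [xc_eq_zero_iff] at h0
  apply h
  rw [xc_eq_zero_iff]
  rcases h0 with h0 | h0 | h0
  · right; right
    exact eq_neg_of_add_eq_zero_left h0
  · left
    exact add_eq_right.1 h0
  · right; left
    rw [← PT_add_PT] at h0
    exact add_right_cancel h0

omit [DecidableEq A] [Algebra ℚ A] in
lemma sq_root {w : A} (hw : w ^ 2 + w + 1 = 0) : (w ^ 2) ^ 2 + w ^ 2 + 1 = 0 := by
  linear_combination (w ^ 2 - w + 1) * hw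

lemma hf_add (hadd : AddPStmt) {w : A} (hw : w ^ 2 + w + 1 = 0) {R : Pt A} (h : xc R ≠ 0) :
    hf w (R + PT) = w * hf w R := by
  have h1 := (hadd A R h).2.2 w hw
  have h2 := (hadd A R h).2.2 (w ^ 2) (sq_root hw)
  have h3 := xc_add_PT_ne h
  have hw0 : w ≠ 0 := by
    rintro rfl
    norm_num at hw
  unfold hf
  rw [if_neg h, if_neg h3]
  by_cases hb : bet w R = 0
  · have hb' : bet w (R + PT) = 0 := by
      rw [hb, zero_div, mul_zero, div_eq_zero_iff] at h1
      exact h1.resolve_right h3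
    rw [if_neg (not_not.2 hb), if_neg (not_not.2 hb'), h2]
    have h4 : w ^ 3 = 1 := by linear_combination (w - 1) * hw
    linear_combination (w * (bet (w ^ 2) R / xc R) ^ 2) * h4
  · have hb' : bet w (R + PT) ≠ 0 := by
      intro h0
      rw [h0, zero_div] at h1
      have := h1.symm
      rw [mul_eq_zero, div_eq_zero_iff] at this
      rcases this with h4 | h4 | h4
      · exact hw0 h4
      · exact hb h4
      · exact h h4
    rw [if_pos hb, if_pos hb', h1]

lemma hf_ne {w : A} (hw : w ^ 2 + w + 1 = 0) (R : Pt A) : hf w R ≠ 0 := by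
  have hA : CharZero A := algebraRat.charZero A
  unfold hf
  split_ifs with h1 h2
  · exact one_ne_zero
  · exact div_ne_zero h2 h1
  · refine pow_ne_zero _ (div_ne_zero ?_ h1)
    intro h3
    rw [not_not] at h2
    have hR : R ≠ 0 := by rintro rfl; exact h1 rfl
    have e := pt_eqn R hR
    unfold bet at h2 h3
    have hw0 : w ≠ 0 := by rintro rfl; norm_num at hw
    have h1w : (1 : A) - w ≠ 0 := by
      intro h0
      have : w = 1 := by linear_combination -h0
      rw [this] at hw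
      norm_num at hw
    have e1 : w * (2 * xc R - 2847) = 0 := by
      linear_combination -(1 + w) * h2 + h3 + (949 * w * (w - 2)) * hw
    have e2 : 2 * xc R = 2847 := by
      rcases mul_eq_zero.1 e1 with h0 | h0
      · exact absurd h0 hw0
      · linear_combination h0
    have e3 : (1 - w) * (yc R + 949) = 0 := by
      linear_combination h2 + w * e2 + 949 * hw
    have e4 : yc R = -949 := by
      rcases mul_eq_zero.1 e3 with h0 | h0
      · exact absurd h0 h1w
      · linear_combination h0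
    have e5 : (8 : A) * (949 ^ 2 - 949 * 2847 + 949 ^ 2) = 2847 ^ 3 := by
      rw [e4] at e
      have : (2 * xc R) ^ 3 = 8 * (949 ^ 2 - 949 * (2 * xc R) + 949 ^ 2) := by
        linear_combination -8 * e
      rw [e2] at this
      exact this.symm
    norm_num at e5

lemma hf_smul (hadd : AddPStmt) {w : A} (hw : w ^ 2 + w + 1 = 0) {R : Pt A} (h : xc R ≠ 0)
    (n : ℕ) : xc (R + n • PT) ≠ 0 ∧ hf w (R + n • PT) = w ^ n * hf w R := by
  induction n with
  | zero => simpa using h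
  | succ n ih =>
    rw [succ_nsmul, ← add_assoc]
    refine ⟨xc_add_PT_ne ih.1, ?_⟩
    rw [hf_add hadd hw ih.1, ih.2, pow_succ]
    ring

lemma hf_pm {B : Type} [Field B] [DecidableEq B] [Algebra ℚ B] (f : A →+* B) (w : A) (R : Pt A) :
    hf (f w) (pm f R) = f (hf w R) := by
  unfold hf
  rw [xc_pm, bet_pm, ← map_pow f w 2, bet_pm]
  by_cases h : xc R = 0
  · rw [if_pos h, if_pos (by rw [h, map_zero]), map_one]
  · rw [if_neg h, if_neg ((map_ne_zero f).2 h)]
    by_cases h2 : bet w R = 0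
    · rw [if_neg (not_not.2 h2), if_neg (not_not.2 (by rw [h2, map_zero])), map_pow, map_div₀]
    · rw [if_pos h2, if_pos ((map_ne_zero f).2 h2), map_div₀]

end hfun

section dl

lemma eta_smul (hEta : EtaStmt) {T : Pt Qbar} (hT : (3 : ℕ) • T = 0) (hT1 : eta T ≠ 1) (n : ℕ) :
    (3 : ℕ) • (T + n • PT) = 0 ∧ eta (T + n • PT) = eta T ∧
      Dl (T + n • PT) = eta T ^ (2 * n) * Dl T := by
  induction n with
  | zero => simpa using hT
  | succ n ih =>
    obtain ⟨h1, h2, h3⟩ := ih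
    have hE := hEta Qbar om om_spec
    have e : (n + 1) • (PT : Pt Qbar) = n • PT + PT := succ_nsmul PT n
    rw [e, ← add_assoc]
    refine ⟨?_, ?_, ?_⟩
    · rw [nsmul_add, h1, three_PT, add_zero]
    · rw [hE.2.1 _ _ h1 three_PT, h2, eta_PT, mul_one]
    · have h4 := (hE.2.2.2.1 _ h1 (by rw [h2]; exact hT1)).2
      rw [h4, h2, h3]
      ring

end dl

section loc

variable [Fact (Nat.Prime 19)]

lemma mem_bot_iff (x : Om 19) : x ∈ (⊥ : IntermediateField ℚ_[19] (Om 19)) ↔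
    ∃ u : ℚ_[19], algebraMap ℚ_[19] (Om 19) u = x := IntermediateField.mem_bot

lemma norm_sub_le' (x y : Om 19) : ‖x - y‖ ≤ max ‖x‖ ‖y‖ := by
  rw [sub_eq_add_neg]
  have := IsUltrametricDist.norm_add_le_max x (-y)
  rwa [norm_neg] at this

lemma norm_dvd_lt {n : ℕ} (h : 19 ∣ n) : ‖(n : Om 19)‖ < 1 := by
  rw [norm_nat_eq, Padic.norm_natCast_lt_one_iff]
  exact h

lemma exists_cbrt_om (hcn : CubeNearStmt) (hOm : OmStmt) (i : Qbar →+* Om 19) :
    ∃ c ∈ (⊥ : IntermediateField ℚ_[19] (Om 19)), c ^ 3 = i om := by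
  obtain ⟨w, hw⟩ := hOm 19 (by norm_num) i
  have hbot : i om ∈ (⊥ : IntermediateField ℚ_[19] (Om 19)) := (mem_bot_iff _).2 ⟨w, hw.symm⟩
  have hloc := om_local i
  have hn : ‖i om‖ = 1 := by
    have h1 : (i om) ^ 3 = 1 := by linear_combination (i om - 1) * hloc
    have h2 := congrArg (fun z : Om 19 => ‖z‖) h1
    simp only [norm_pow, norm_one] at h2
    exact (pow_eq_one_iff_of_nonneg (norm_nonneg _) (by norm_num)).1 h2
  -- main construction
  have key : ∀ m : ℕ, ¬ 19 ∣ m → ‖i om - (m : Om 19) ^ 3‖ < 1 →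
      ∃ c ∈ (⊥ : IntermediateField ℚ_[19] (Om 19)), c ^ 3 = i om := by
    intro m hm hlt
    have hm1 : ‖(m : Om 19)‖ = 1 := norm_nat_one hm
    have hm0 : (m : Om 19) ≠ 0 := by
      intro h0
      rw [h0, norm_zero] at hm1
      exact zero_ne_one hm1
    have hmbot : (m : Om 19) ∈ (⊥ : IntermediateField ℚ_[19] (Om 19)) :=
      (mem_bot_iff _).2 ⟨m, by simp⟩
    obtain ⟨y, hy, hy3⟩ := hcn 19 (by norm_num) ⊥ (i om / (m : Om 19) ^ 3)
      (div_mem hbot (pow_mem hmbot 3)) (by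
        have : i om / (m : Om 19) ^ 3 - 1 = (i om - (m : Om 19) ^ 3) / (m : Om 19) ^ 3 := by
          field_simp
        rw [this, norm_div, norm_pow, hm1, one_pow, div_one]
        exact hlt)
    refine ⟨m * y, mul_mem hmbot hy, ?_⟩
    rw [mul_pow, hy3]
    field_simp
  have hprod : (i om - 7) * (i om - 11) = ((19 : ℕ) : Om 19) * (4 - i om) := by
    push_cast
    linear_combination hloc
  have h4 : ‖(4 - i om : Om 19)‖ ≤ 1 := by
    have h5 := norm_sub_le' (4 : Om 19) (i om)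
    have h6 : ‖((4 : ℕ) : Om 19)‖ = 1 := norm_nat_one (by norm_num)
    have h7 : ‖(4 : Om 19)‖ = 1 := by exact_mod_cast h6
    rw [h7, hn, max_self] at h5
    exact h5
  have hlt : ‖i om - 7‖ * ‖i om - 11‖ < 1 := by
    rw [← norm_mul, hprod, norm_mul]
    have h19 := norm_dvd_lt (n := 19) (dvd_refl 19)
    calc ‖((19 : ℕ) : Om 19)‖ * ‖(4 - i om : Om 19)‖ ≤ ‖((19 : ℕ) : Om 19)‖ * 1 := by
          gcongr
      _ < 1 := by rw [mul_one]; exact h19
  have hor : ‖i om - 7‖ < 1 ∨ ‖i om - 11‖ < 1 := by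
    by_contra hcon
    push Not at hcon
    have := one_le_mul_of_one_le_of_one_le hcon.1 hcon.2
    linarith
  rcases hor with h | h
  · refine key 4 (by norm_num) ?_
    have e : i om - ((4 : ℕ) : Om 19) ^ 3 = (i om - 7) - ((57 : ℕ) : Om 19) := by
      push_cast; ring
    rw [e]
    exact lt_of_le_of_lt (norm_sub_le' _ _) (max_lt h (norm_dvd_lt (n := 57) (by norm_num)))
  · refine key 5 (by norm_num) ?_
    have e : i om - ((5 : ℕ) : Om 19) ^ 3 = (i om - 11) - ((114 : ℕ) : Om 19) := by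
      push_cast; ring
    rw [e]
    exact lt_of_le_of_lt (norm_sub_le' _ _) (max_lt h (norm_dvd_lt (n := 114) (by norm_num)))

/-- the norm of an element with rational cube -/
lemma norm_cube {i : Qbar →+* Om 19} {δ : Qbar} {q : ℚ} (hq0 : q ≠ 0) (hq : δ ^ 3 = (q : Qbar)) :
    ‖i δ‖ ^ 3 = (19 : ℝ) ^ (-padicValRat 19 q) := by
  rw [← norm_pow, ← map_pow, hq, norm_rat_eq i hq0]
  norm_num

lemma bot_norm_ne {π : Om 19} {v : ℤ} (hπ : ‖π‖ ^ 3 = (19 : ℝ) ^ (-v)) (hv : ¬ (3 : ℤ) ∣ v)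
    {a : Om 19} (ha : a ∈ (⊥ : IntermediateField ℚ_[19] (Om 19))) :
    ‖a‖ ≠ ‖π‖ ∧ ‖a‖ ≠ ‖π‖ ^ 2 := by
  obtain ⟨u, rfl⟩ := (mem_bot_iff a).1 ha
  have hn : ‖algebraMap ℚ_[19] (Om 19) u‖ = ‖u‖ := PadicAlgCl.norm_extends 19 u
  rw [hn]
  have hπ0 : ‖π‖ ≠ 0 := by
    intro h0
    rw [h0] at hπ
    have : (0 : ℝ) < (19 : ℝ) ^ (-v) := by positivity
    rw [← hπ] at this
    norm_num at this
  have main : ∀ k : ℕ, k = 1 ∨ k = 2 → ‖u‖ ≠ ‖π‖ ^ k := by
    intro k hk h
    have hu : u ≠ 0 := by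
      rintro rfl
      rw [norm_zero] at h
      exact pow_ne_zero k hπ0 h.symm
    rw [Padic.norm_eq_zpow_neg_valuation hu] at h
    have h1 : (19 : ℝ) ^ (-u.valuation * 3) = (19 : ℝ) ^ (-v * k) := by
      have h19 : ((19 : ℕ) : ℝ) = 19 := by norm_num
      rw [h19] at h
      rw [zpow_mul, h, zpow_mul, ← hπ]
      norm_cast
      rw [← pow_mul, ← pow_mul, mul_comm]
    have h3 := (zpow_right_injective₀ (by norm_num : (0 : ℝ) < 19) (by norm_num)) h1
    rcases hk with rfl | rfl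
    · apply hv
      exact ⟨u.valuation, by push_cast at h3; omega⟩
    · apply hv
      push_cast at h3
      omega
  refine ⟨?_, main 2 (Or.inr rfl)⟩
  have := main 1 (Or.inl rfl)
  rwa [pow_one] at this

/-- local analysis of an automorphism fixing `F` -/
lemma local_psi (hadd : AddPStmt) (hEta : EtaStmt) (hK : KSetupStmt) {c : Gam → Pt Qbar}
    (hc : IsSel HK c) {δ : Qbar} (hδ : δ ≠ 0) (hgen : ∀ s ∈ HK, s δ = eta (c s) * δ)
    {i : Qbar →+* Om 19} {R : Pt (Om 19)}
    (hR : ∀ (g : Gp 19) (s : Gam), s ∈ HK → Res i g s →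
      pm i (c s) = pm (g : Om 19 →+* Om 19) R - R)
    (hmem : i δ ∈ FF i th) {g : Gp 19} {s : Gam} (hgF : ∀ a ∈ FF i th, g a = a)
    (hs : Res i g s) :
    s ∈ HK ∧ ∃ ψ : ZMod 3, c s = ψ.val • PT ∧ g (hf (i om) R) = (i om) ^ ψ.val * hf (i om) R := by
  have h1 : s om = om := (res_om hs).1 (hgF _ (om_mem_FF i th))
  have h2 : s th = th := (res_eq hs th th).1 (hgF _ (th_mem_FF i th))
  have h3 : s ∈ HK := (hK.1.mem s h1).2 h2
  refine ⟨h3, ?_⟩
  have h4 : s δ = δ := (res_eq hs δ δ).1 (hgF _ hmem)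
  have h5 : eta (c s) = 1 := by
    have := hgen s h3
    rw [h4] at this
    exact (mul_eq_right₀ hδ).1 this.symm
  obtain ⟨ψ, hψ⟩ := exists_val_smul ((hEta Qbar om om_spec).2.2.1 _ (hc.tor s h3) h5)
  refine ⟨ψ, hψ, ?_⟩
  have h6 : pm (g : Om 19 →+* Om 19) R = R + ψ.val • PT := by
    have := hR g s h3 hs
    rw [hψ, map_nsmul, pm_PT] at this
    rw [this]; abel
  have h7 : g (i om) = i om := hgF _ (om_mem_FF i th)
  have h8 : g (hf (i om) R) = hf (i om) (R + ψ.val • PT) := by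
    have := hf_pm (g : Om 19 →+* Om 19) (i om) R
    rw [h6] at this
    change hf (g (i om)) (R + ψ.val • PT) = g (hf (i om) R) at this
    rw [h7] at this
    exact this.symm
  rw [h8]
  by_cases hx : xc R = 0
  · -- `R` is rational
    have h9 : pm (g : Om 19 →+* Om 19) R = R := by
      rcases (xc_eq_zero_iff R).1 hx with h | h | h
      · rw [h, map_zero]
      · rw [h, pm_PT]
      · rw [h, map_neg, pm_PT]
    have h10 : ψ.val • (PT : Pt (Om 19)) = 0 := by
      rw [h9] at h6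
      exact (add_eq_left.1 h6.symm)
    rw [h10, add_zero, val_smul_PT_zero h10, ZMod.val_zero, pow_zero, one_mul]
  · exact (hf_smul hadd (om_local i) hx ψ.val).2

end loc

lemma pow_val_mod {A : Type} [Field A] {w : A} (hw : w ^ 3 = 1) {m n : ℕ} (h : m % 3 = n % 3) :
    w ^ m = w ^ n := by
  rw [← Nat.div_add_mod m 3, ← Nat.div_add_mod n 3, pow_add, pow_mul, hw, one_pow, one_mul,
    pow_add, pow_mul, hw, one_pow, one_mul, h]

lemma val_identity : ∀ x y : ZMod 3, (y.val + 2 * (y - x).val) % 3 = x.val % 3 := by decide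

/-- **C1** -/
theorem d19 (hadd : AddPStmt) (hEta : EtaStmt) (hI19 : I19Stmt) (hcn : CubeNearStmt)
    (hdom : DomStmt) (hKum : KumStmt) (hOm : OmStmt) (hK : KSetupStmt) : D19Stmt := by
  intro c hc hinv δ hδ hgen q hq
  by_contra hv
  have hp19 : Fact (Nat.Prime 19) := ⟨by norm_num⟩
  obtain ⟨i⟩ := exists_emb 19
  have hE := hEta Qbar om om_spec
  have hq0 : q ≠ 0 := by
    rintro rfl
    apply hδ
    have : δ ^ 3 = 0 := by rw [hq]; simp
    exact pow_eq_zero_iff (by norm_num) |>.1 this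
  obtain ⟨wp, hwp⟩ := hOm 19 (by norm_num) i
  have hfixw : ∀ g : Gp 19, g (i om) = i om := fun g => by rw [hwp]; exact g.commutes wp
  have hwloc := om_local i
  have hw3 : (i om) ^ 3 = 1 := by linear_combination (i om - 1) * hwloc
  have hw0 : i om ≠ 0 := by
    intro h0
    rw [h0] at hw3
    norm_num at hw3
  have hw1 : i om ≠ 1 := by
    intro h0
    rw [h0] at hwloc
    norm_num at hwloc
  have hwbot : i om ∈ (⊥ : IntermediateField ℚ_[19] (Om 19)) := (mem_bot_iff _).2 ⟨wp, hwp.symm⟩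
  obtain ⟨R, hR⟩ := hc.loc 19 i
  have hiδ : i δ ≠ 0 := (map_ne_zero i).2 hδ
  have hith : i th ≠ 0 := (map_ne_zero i).2 hK.1.ne
  -- `i δ` lies in `F`
  have hmem : i δ ∈ FF i th := by
    refine hI19 (FF i th) (i om) (om_mem_FF i th) hwloc (i δ) R hiδ ?_
    intro g hgF
    obtain ⟨s, hs⟩ := exists_res i g
    have h1 : s om = om := (res_om hs).1 (hgF _ (om_mem_FF i th))
    have h2 : s th = th := (res_eq hs th th).1 (hgF _ (th_mem_FF i th))
    have h3 : s ∈ HK := (hK.1.mem s h1).2 h2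
    rw [← hR g s h3 hs]
    refine ⟨by rw [← map_nsmul, hc.tor s h3, map_zero], ?_⟩
    rw [eta_pm, hs δ, hgen s h3, map_mul]
  have hnδ := norm_cube (i := i) hq0 hq
  have hbotne : ∀ a ∈ (⊥ : IntermediateField ℚ_[19] (Om 19)), ‖a‖ ≠ ‖i δ‖ ∧ ‖a‖ ≠ ‖i δ‖ ^ 2 :=
    fun a ha => bot_norm_ne hnδ hv ha
  have hδbot : i δ ∉ (⊥ : IntermediateField ℚ_[19] (Om 19)) := fun h => (hbotne _ h).1 rfl
  have hδ3 : (i δ) ^ 3 = algebraMap ℚ_[19] (Om 19) (q : ℚ_[19]) := by
    rw [← map_pow, hq, map_ratCast, map_ratCast]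
  have hδ3bot : (i δ) ^ 3 ∈ (⊥ : IntermediateField ℚ_[19] (Om 19)) :=
    (mem_bot_iff _).2 ⟨_, hδ3.symm⟩
  -- an automorphism with `g (i δ) = i om * i δ`
  obtain ⟨g, hg⟩ : ∃ g : Gp 19, g (i δ) = i om * i δ := by
    rw [mem_iff_fixed] at hδbot
    push Not at hδbot
    obtain ⟨g, _, hg⟩ := hδbot
    have h1 : (g (i δ)) ^ 3 = (i δ) ^ 3 := by
      rw [← map_pow, hδ3]; exact g.commutes _
    have h2 : (g (i δ) - i δ) * ((g (i δ) - i om * i δ) * (g (i δ) - (i om) ^ 2 * i δ)) = 0 := by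
      linear_combination h1 +
        (- i δ * (g (i δ)) ^ 2 + (i om) * (i δ) ^ 2 * g (i δ) - (i δ) ^ 3 * (i om - 1)) * hwloc
    rcases mul_eq_zero.1 h2 with h3 | h3
    · exact absurd (by linear_combination h3) hg
    · rcases mul_eq_zero.1 h3 with h4 | h4
      · exact ⟨g, by linear_combination h4⟩
      · refine ⟨g * g, ?_⟩
        have h5 : g (i δ) = (i om) ^ 2 * i δ := by linear_combination h4
        rw [AlgEquiv.mul_apply, h5, map_mul, map_pow, hfixw, h5]
        linear_combination (i om * i δ) * hw3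
  obtain ⟨r, hr⟩ := exists_res i g
  have hr1 : r om = om := (res_om hr).1 (hfixw g)
  have hr2 : r δ = om * δ := (res_eq hr δ (om * δ)).1 (by rw [map_mul]; exact hg)
  obtain ⟨A, hA3, hA⟩ := hinv r
  -- `eta A = om`
  have hetaA : eta A = om := by
    obtain ⟨τ, hτ, hτ1⟩ := hK.1.tau
    have hτ' : r⁻¹ * τ * r ∈ HK := conj_mem hK.2.2.1 r hτ
    have h1 := hgen _ hτ'
    have h2 : r (eta (c (r⁻¹ * τ * r))) = om * eta (c τ) := by
      have h3 := congrArg r h1
      rw [map_mul, AlgEquiv.mul_apply, AlgEquiv.mul_apply, hr2, ← AlgEquiv.mul_apply r r⁻¹,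
        mul_inv_cancel, AlgEquiv.one_apply, map_mul, hτ1, hgen τ hτ] at h3
      have h4 : (om * δ) * (om * eta (c τ)) = (om * δ) * r (eta (c (r⁻¹ * τ * r))) := by
        linear_combination h3
      exact (mul_left_cancel₀ (mul_ne_zero om_ne_zero hδ) h4).symm
    have h5 : conj r c τ - c τ = pm (τ : Qbar →+* Qbar) A - A := hA τ hτ
    have hct3 : (3 : ℕ) • c τ = 0 := hc.tor τ hτ
    have hτA3 : (3 : ℕ) • pm (τ : Qbar →+* Qbar) A = 0 := by rw [← map_nsmul, hA3, map_zero]
    have hD3 : (3 : ℕ) • (pm (τ : Qbar →+* Qbar) A - A) = 0 := by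
      rw [nsmul_sub, hτA3, hA3, sub_zero]
    have h6 : conj r c τ = c τ + (pm (τ : Qbar →+* Qbar) A - A) := by
      rw [← h5, add_sub_cancel]
    have h7 : eta (conj r c τ) = om * eta (c τ) := by
      unfold F8.conj
      rw [eta_pm]
      exact h2
    rw [h6, hE.2.1 _ _ hct3 hD3] at h7
    have hne : eta (c τ) ≠ 0 := by
      intro h0
      have := hE.1 _ hct3
      rw [h0] at this
      norm_num at this
    have h8 : eta (pm (τ : Qbar →+* Qbar) A - A) = om := by
      have : eta (c τ) * eta (pm (τ : Qbar →+* Qbar) A - A) = eta (c τ) * om := by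
        rw [h7]; ring
      exact mul_left_cancel₀ hne this
    have h9 : τ (eta A) = om * eta A := by
      have h10 := hE.2.1 _ _ hD3 hA3
      rw [sub_add_cancel, eta_pm, h8] at h10
      exact h10
    obtain ⟨n, hn⟩ := cube_root_of_one (hE.1 _ hA3)
    have hn' : eta A = om ^ (n % 3) := by rw [hn, ← om_pow_mod]
    have hn3 : n % 3 < 3 := Nat.mod_lt _ (by norm_num)
    rw [hn'] at h9 ⊢
    rw [map_pow, hτ1] at h9
    interval_cases n % 3
    · exfalso
      apply om_ne_one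
      linear_combination -h9
    · rw [pow_one]
    · exfalso
      apply om_ne_one
      linear_combination h9 + (-om) * om_cube + om_cube
  have hetaA1 : eta A ≠ 1 := by rw [hetaA]; exact om_ne_one
  have hDl3 : (Dl A) ^ 3 = 25631 := (hE.2.2.2.1 A hA3 hetaA1).1
  have hDl0 : Dl A ≠ 0 := by
    intro h0
    rw [h0] at hDl3
    norm_num at hDl3
  set h : Om 19 := hf (i om) R with hhdef
  have hh0 : h ≠ 0 := hf_ne hwloc R
  have hgh0 : g h ≠ 0 := (map_ne_zero g).2 hh0
  -- `g` normalises `F`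
  have hconj : ∀ g' : Gp 19, (∀ a ∈ FF i th, g' a = a) →
      ∀ a ∈ FF i th, (g⁻¹ * g' * g) a = a := by
    intro g' hg' a ha
    refine (mem_FF_iff i th a).1 ha _ (hfixw _) ?_
    -- `g (i th) = w ^ k * i th`
    have h1 : (r th) ^ 3 = th ^ 3 := by
      rw [← map_pow, th_spec]
      unfold ka
      rw [map_mul, map_sub, map_mul, hr1]
      simp [map_ofNat]
    obtain ⟨k, hk⟩ := cube_root_of_one (x := r th / th) (by
      rw [div_pow, h1]; exact div_self (pow_ne_zero _ hK.1.ne))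
    have h2 : r th = om ^ k * th := by
      rw [← hk, div_mul_cancel₀ _ hK.1.ne]
    have h3 : g (i th) = (i om) ^ k * i th := by
      rw [hr th, h2, map_mul, map_pow]
    have h4 : g' (i th) = i th := hg' _ (th_mem_FF i th)
    rw [AlgEquiv.mul_apply, AlgEquiv.mul_apply, h3, map_mul, map_pow, hfixw, h4, ← h3,
      ← AlgEquiv.mul_apply, inv_mul_cancel, AlgEquiv.one_apply]
  -- the key invariance
  have key : ∀ g' : Gp 19, (∀ a ∈ FF i th, g' a = a) →
      g' (h ^ 3) = h ^ 3 ∧ g' (g h / h * i (Dl A)) = g h / h * i (Dl A) := by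
    intro g' hg'
    obtain ⟨s, hs⟩ := exists_res i g'
    obtain ⟨hsK, ψ, hψ, hψh⟩ := local_psi hadd hEta hK hc hδ hgen hR hmem hg' hs
    have hg'' := hconj g' hg'
    have hs'' : Res i (g⁻¹ * g' * g) (r⁻¹ * s * r) := (hr.inv.mul hs).mul hr
    obtain ⟨_, ψ', hψ', hψh'⟩ := local_psi hadd hEta hK hc hδ hgen hR hmem hg'' hs''
    rw [← hhdef] at hψh hψh'
    refine ⟨?_, ?_⟩
    · rw [map_pow, hψh, mul_pow, ← pow_mul, mul_comm ψ.val 3, pow_mul, hw3, one_pow, one_mul]
    · -- behaviour of `A`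
      have h1 : conj r c s - c s = pm (s : Qbar →+* Qbar) A - A := hA s hsK
      have h2 : conj r c s = ψ'.val • PT := by
        unfold F8.conj
        rw [hψ', map_nsmul, pm_PT]
      have h3 : pm (s : Qbar →+* Qbar) A = A + (ψ' - ψ).val • PT := by
        have h4 := val_add_smul_PT (A := Qbar) (ψ' - ψ) ψ
        rw [sub_add_cancel] at h4
        rw [h2, hψ, h4, add_sub_cancel_right] at h1
        rw [h1, add_sub_cancel]
      have h5 : s (Dl A) = om ^ (2 * (ψ' - ψ).val) * Dl A := by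
        have h6 := (eta_smul hEta hA3 hetaA1 (ψ' - ψ).val).2.2
        rw [← h3, Dl_pm, hetaA] at h6
        exact h6
      have h7 : g' (i (Dl A)) = (i om) ^ (2 * (ψ' - ψ).val) * i (Dl A) := by
        rw [hs (Dl A), h5, map_mul, map_pow]
      have h8 : g' (g h) = (i om) ^ ψ'.val * g h := by
        have h9 := congrArg g hψh'
        rw [AlgEquiv.mul_apply, AlgEquiv.mul_apply, ← AlgEquiv.mul_apply g g⁻¹, mul_inv_cancel,
          AlgEquiv.one_apply, map_mul, map_pow, hfixw] at h9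
        exact h9
      rw [map_mul, map_div₀, h8, hψh, h7]
      have h11 : (i om) ^ ψ'.val * (i om) ^ (2 * (ψ' - ψ).val) = (i om) ^ ψ.val := by
        rw [← pow_add]
        exact pow_val_mod hw3 (val_identity ψ ψ')
      have hwψ : (i om) ^ ψ.val ≠ 0 := pow_ne_zero _ hw0
      calc (i om) ^ ψ'.val * g h / ((i om) ^ ψ.val * h) * ((i om) ^ (2 * (ψ' - ψ).val) * i (Dl A))
          = ((i om) ^ ψ'.val * (i om) ^ (2 * (ψ' - ψ).val)) / (i om) ^ ψ.val *
              (g h / h * i (Dl A)) := by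
            field_simp
        _ = g h / h * i (Dl A) := by rw [h11, div_self hwψ, one_mul]
  set Y : Om 19 := h ^ 3 with hY
  have hY0 : Y ≠ 0 := pow_ne_zero _ hh0
  have hYF : Y ∈ FF i th := (mem_iff_fixed _ _).2 (fun g' hg' => (key g' hg').1)
  have hEF : g h / h * i (Dl A) ∈ FF i th := (mem_iff_fixed _ _).2 (fun g' hg' => (key g' hg').2)
  have hgYF : g Y ∈ FF i th := by
    refine (mem_iff_fixed _ _).2 (fun g' hg' => ?_)
    have h1 := hconj g' hg' Y hYF
    rw [AlgEquiv.mul_apply, AlgEquiv.mul_apply] at h1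
    have h2 := congrArg g h1
    rw [← AlgEquiv.mul_apply g g⁻¹, mul_inv_cancel, AlgEquiv.one_apply] at h2
    exact h2
  -- `i ka` is rational
  have hka : (i th) ^ 3 = algebraMap ℚ_[19] (Om 19) (18031 * (10 - 129 * wp)) := by
    rw [← map_pow, th_spec]
    unfold ka
    rw [map_mul, map_sub, map_mul, hwp]
    simp [map_ofNat]
  have hth3bot : (i th) ^ 3 ∈ (⊥ : IntermediateField ℚ_[19] (Om 19)) :=
    (mem_bot_iff _).2 ⟨_, hka.symm⟩
  -- Kummer generators of `F`
  have hkum : ∀ x : Om 19, x ∈ FF i th → x ^ 3 ∈ (⊥ : IntermediateField ℚ_[19] (Om 19)) →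
      ∃ j : ℕ, j < 3 ∧ ∃ a ∈ (⊥ : IntermediateField ℚ_[19] (Om 19)), x = a * (i th) ^ j := by
    intro x hx hx3
    exact hKum ℚ_[19] (Om 19) ⊥ (i om) (i th) x hwbot hwloc hith hth3bot hx3
      (fun g' _ hg' => (mem_FF_iff i th x).1 hx g' (hfixw g') hg')
  -- an automorphism fixing `i δ` fixes `F`
  have hfixF : ∀ g' : Gp 19, g' (i δ) = i δ → ∀ a ∈ FF i th, g' a = a := by
    intro g' hg' a ha
    refine (mem_FF_iff i th a).1 ha g' (hfixw g') ?_
    obtain ⟨j, hj, a0, ha0, hja⟩ := hkum (i δ) hmem hδ3bot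
    have ha00 : a0 ≠ 0 := by
      rintro rfl
      rw [zero_mul] at hja
      exact hiδ hja
    have hfa : g' a0 = a0 := by
      obtain ⟨u, rfl⟩ := (mem_bot_iff a0).1 ha0
      exact g'.commutes u
    set z : Om 19 := g' (i th) / i th with hz
    have hz3 : z ^ 3 = 1 := by
      rw [hz, div_pow, ← map_pow, hka, g'.commutes, ← hka]
      exact div_self (pow_ne_zero _ hith)
    have hzj : z ^ j = 1 := by
      have h1 := hg'
      rw [hja, map_mul, map_pow, hfa] at h1
      have h2 := mul_left_cancel₀ ha00 h1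
      rw [hz, div_pow, h2]
      exact div_self (pow_ne_zero _ hith)
    have hz1 : z = 1 := by
      interval_cases j
      · exfalso
        rw [pow_zero, mul_one] at hja
        exact hδbot (hja ▸ ha0)
      · rwa [pow_one] at hzj
      · calc z = z ^ 3 / z ^ 2 := by
              rw [hzj, div_one]
              have : z ^ 3 = z * z ^ 2 := by ring
              rw [this, hzj, mul_one]
          _ = 1 := by rw [hz3, hzj, div_one]
    have h3 : g' (i th) = z * i th := by rw [hz, div_mul_cancel₀ _ hith]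
    rw [h3, hz1, one_mul]
  -- dominant term of `Y`
  obtain ⟨j, hj, b, hb, hjb⟩ := hdom 19 ⊥ (i δ) hiδ
    ⟨(i δ) ^ 3, hδ3bot, 0, zero_mem _, 0, zero_mem _, by ring⟩
    (fun a ha => (hbotne a ha).1) (fun a ha => (hbotne a ha).2) Y hY0
    (fun g' _ hg' => hfixF g' hg' Y hYF)
  set e : Om 19 := Y - b * (i δ) ^ j with he
  have hfb : g b = b := by
    obtain ⟨u, rfl⟩ := (mem_bot_iff b).1 hb
    exact g.commutes u
  have hgY : g Y - (i om) ^ j * Y = g e - (i om) ^ j * e := by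
    have h1 : g e = g Y - b * ((i om) ^ j * (i δ) ^ j) := by
      rw [he, map_sub, map_mul, map_pow g (i δ) j, hfb, hg, mul_pow]
    rw [h1, he]
    ring
  have hnw : ‖i om‖ = 1 := by
    have h2 := congrArg (fun z : Om 19 => ‖z‖) hw3
    simp only [norm_pow, norm_one] at h2
    exact (pow_eq_one_iff_of_nonneg (norm_nonneg _) (by norm_num)).1 h2
  have hnum : ‖g Y - (i om) ^ j * Y‖ < ‖Y‖ := by
    rw [hgY]
    refine lt_of_le_of_lt (norm_sub_le' _ _) ?_
    rw [norm_gal, norm_mul, norm_pow, hnw, one_pow, one_mul, max_self]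
    exact hjb
  have hwj0 : (i om) ^ j ≠ 0 := pow_ne_zero _ hw0
  obtain ⟨y, hy, hy3⟩ := hcn 19 (by norm_num) (FF i th) (g Y / ((i om) ^ j * Y))
    (div_mem hgYF (mul_mem (pow_mem (om_mem_FF i th) j) hYF)) (by
      have : g Y / ((i om) ^ j * Y) - 1 = (g Y - (i om) ^ j * Y) / ((i om) ^ j * Y) := by
        field_simp
      rw [this, norm_div, norm_mul, norm_pow, hnw, one_pow, one_mul]
      exact (div_lt_one (norm_pos_iff.2 hY0)).2 hnum)
  obtain ⟨c1, hc1, hc13⟩ := exists_cbrt_om hcn hOm i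
  have hgY0 : g Y ≠ 0 := (map_ne_zero g).2 hY0
  have hcube : (c1 ^ j * y) ^ 3 = g Y / Y := by
    rw [mul_pow, hy3, ← pow_mul, mul_comm j 3, pow_mul, hc13]
    field_simp
  have hcy0 : c1 ^ j * y ≠ 0 := by
    intro h0
    rw [h0] at hcube
    have : g Y / Y ≠ 0 := div_ne_zero hgY0 hY0
    apply this
    rw [← hcube]; norm_num
  have hbotle : ∀ x ∈ (⊥ : IntermediateField ℚ_[19] (Om 19)), x ∈ FF i th :=
    fun x hx => (bot_le : (⊥ : IntermediateField ℚ_[19] (Om 19)) ≤ FF i th) hx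
  set X : Om 19 := g h / h * i (Dl A) / (c1 ^ j * y) with hX
  have hXF : X ∈ FF i th :=
    div_mem hEF (mul_mem (pow_mem (hbotle _ hc1) j) hy)
  have hX3 : X ^ 3 = 25631 := by
    have h1 : (g h / h) ^ 3 = g Y / Y := by
      rw [hY, div_pow, map_pow]
    rw [hX, div_pow, hcube, mul_pow, h1, ← map_pow, hDl3, map_ofNat]
    field_simp
  have h25 : (25631 : Om 19) = algebraMap ℚ_[19] (Om 19) 25631 := by
    rw [map_ofNat]
  obtain ⟨j', hj', a, ha, hXa⟩ := hkum X hXF (by
    rw [hX3]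
    exact (mem_bot_iff _).2 ⟨25631, h25.symm⟩)
  obtain ⟨a', rfl⟩ := (mem_bot_iff a).1 ha
  have hfinal : (25631 : ℚ_[19]) = a' ^ 3 * (18031 * (10 - 129 * wp)) ^ j' := by
    apply (algebraMap ℚ_[19] (Om 19)).injective
    have e1 : algebraMap ℚ_[19] (Om 19) (a' ^ 3 * (18031 * (10 - 129 * wp)) ^ j') =
        (algebraMap ℚ_[19] (Om 19) a') ^ 3 *
          (algebraMap ℚ_[19] (Om 19) (18031 * (10 - 129 * wp))) ^ j' := by
      rw [map_mul (algebraMap ℚ_[19] (Om 19)) (a' ^ 3), map_pow, map_pow]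
    rw [e1, ← h25, ← hX3, hXa, mul_pow, ← pow_mul, mul_comm j' 3, pow_mul, hka]
  have hwp' : wp ^ 2 + wp + 1 = 0 := by
    apply (algebraMap ℚ_[19] (Om 19)).injective
    rw [map_add, map_add, map_pow, ← hwp, map_one, map_zero]
    exact hwloc
  exact final_contra hwp' hj' hfinal

end Pool.Agent.H77.F8
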